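import Pool.Agent.H97.HV.Targets

/-!
Row ETR of the board hov: one club set for all parameters in `V_ l`.
-/

open Ordinal Cardinal Order Set
open scoped ZFSet

universe u

namespace Pool.Agent.H60.HV

open _root_.HD HD.PRK HD.HV

/-- the section of `R` at `b` -/
noncomputable def sct (R : ZFSet.{u}) (l b : Ordinal.{u}) : ZFSet.{u} :=
  ZFSet.sep (fun a => ZFSet.pair a b.toZFSet ∈ R) (V_ l)

theorem mem_sct {R a : ZFSet.{u}} {l b : Ordinal.{u}} :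
    a ∈ sct R l b ↔ a ∈ V_ l ∧ ZFSet.pair a b.toZFSet ∈ R := by
  unfold sct
  rw [ZFSet.mem_sep]

theorem sct_mem (R : ZFSet.{u}) (l b : Ordinal.{u}) : sct R l b ∈ V_ (succ l) := by
  rw [ZFSet.vonNeumann_succ, ZFSet.mem_powerset]
  intro a ha
  exact (mem_sct.1 ha).1

theorem od_sct {R : ZFSet.{u}} (hR : OD R) (l b : Ordinal.{u}) : OD (sct R l b) := by
  refine OD.of_mem (P := fun v => v 0 ∈ V_ l ∧ ZFSet.pair (v 0) b.toZFSet ∈ R)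
    (DZ.and (DZ.od (R := fun b v => v 0 ∈ b) (NF.od_V l) (DZ.mem 1 0)) ?_) fun v => mem_sct.symm
  have h1 : DZ.{u} fun v => ZFSet.pair (v 2) (v 0) ∈ v 1 := dz_pmem 2 0 1
  have h2 : DZ.{u} fun v => ZFSet.pair (v 1) b.toZFSet ∈ v 0 :=
    DZ.sub (OD.ordinal b).dz (R := fun b v => ZFSet.pair (v 1) b ∈ v 0) h1
  exact DZ.sub hR.dz (R := fun r v => ZFSet.pair (v 0) b.toZFSet ∈ r) h2

theorem ds_sct {R V : ZFSet.{u}} (hR : OD R) (hV : OD V) (l : Ordinal.{u}) :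
    DS {b : Ordinal.{u} | ∀ a ∈ V_ l, (ZFSet.pair a b.toZFSet ∈ R ↔ a ∈ V)} := by
  have h0 : DZ.{u} fun v => ∀ a ∈ v 1, (ZFSet.pair a (v 3) ∈ v 0 ↔ a ∈ v 2) :=
    DZ.allMem 1 (R := fun a v => ZFSet.pair a (v 3) ∈ v 0 ↔ a ∈ v 2)
      ((dz_pmem 0 4 1).iff (DZ.mem 0 3))
  have h1 : DZ.{u} fun v => ∀ a ∈ v 0, (ZFSet.pair a (v 2) ∈ R ↔ a ∈ v 1) :=
    DZ.sub hR.dz (R := fun r v => ∀ a ∈ v 0, (ZFSet.pair a (v 2) ∈ r ↔ a ∈ v 1)) h0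
  have h2 : DZ.{u} fun v => ∀ a ∈ V_ l, (ZFSet.pair a (v 1) ∈ R ↔ a ∈ v 0) :=
    DZ.sub (NF.od_V l).dz (R := fun r v => ∀ a ∈ r, (ZFSet.pair a (v 1) ∈ R ↔ a ∈ v 0)) h1
  have h3 : DZ.{u} fun v => ∀ a ∈ V_ l, (ZFSet.pair a (v 0) ∈ R ↔ a ∈ V) :=
    DZ.sub hV.dz (R := fun r v => ∀ a ∈ V_ l, (ZFSet.pair a (v 0) ∈ R ↔ a ∈ r)) h2
  exact h3.do

theorem clb_univ (K : Cardinal.{u}) (hK : K.IsRegular) : Clb K.ord univ := by
  refine ⟨fun a ha => ⟨succ a, ?_, lt_succ a, mem_univ _⟩, fun _ _ _ _ => mem_univ _⟩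
  exact (Cardinal.isSuccLimit_ord hK.aleph0_le).succ_lt ha

theorem pf_ETR : T_ETR.{u} := by
  intro en hen M K hK hK0 c hat l hSz R hR
  obtain ⟨ν, hν, e, he⟩ := hSz
  have hcof : K.ord.cof = K := hK.cof_ord
  have key : ∃ i < ν.ord, Pos M.ord K.ord {b | b ∈ E en c ∧ sct R l b = e i} := by
    by_contra hno
    have hno' : ∀ i < ν.ord, ¬ Pos M.ord K.ord {b | b ∈ E en c ∧ sct R l b = e i} :=
      fun i hi h => hno ⟨i, hi, h⟩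
    have h1 := All.va.{u} M.ord K.ord (by rw [hcof]; exact hK0) ν.ord
      (by rw [hcof, Cardinal.card_ord]; exact hν)
      (fun i => {b | b ∈ E en c ∧ sct R l b = e i}) hno'
    apply h1
    intro C hC
    obtain ⟨b, hb, hbC, hbE, hbc⟩ := hat.pos C hC
    obtain ⟨i, hi, hfi⟩ := he _ (sct_mem R l b)
    exact ⟨b, hb, hbC, ⟨i, hi, hbE, hfi⟩, hbc⟩
  obtain ⟨i, hi, hpos⟩ := key
  obtain ⟨b0, _, _, ⟨_, hb0⟩, _⟩ := hpos univ (clb_univ K hK)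
  have hV : OD (e i) := hb0 ▸ od_sct hR l b0
  have hVl : ∀ a ∈ e i, a ∈ V_ l := by
    intro a ha
    rw [← hb0] at ha
    exact (mem_sct.1 ha).1
  obtain ⟨x, hx⟩ := (All.ea.{u} en hen).2.2.1 _ (ds_sct hR hV l) K.ord
  have hp2 : Pos M.ord K.ord (E en c ∩ E en x) := by
    intro C hC
    obtain ⟨b, hb, hbC, ⟨hbE, hbs⟩, hbc⟩ := hpos C hC
    refine ⟨b, hb, hbC, ⟨hbE, ?_⟩, hbc⟩
    rw [hx]
    refine ⟨fun a ha => ?_, hb⟩
    rw [← hbs, mem_sct]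
    exact ⟨fun h => ⟨ha, h⟩, fun h => h.2⟩
  have hn : ¬ Pos M.ord K.ord (E en c \ E en x) := fun h => hat.ult x ⟨hp2, h⟩
  unfold Pos at hn
  push Not at hn
  obtain ⟨C, hC, hCn⟩ := hn
  have hin : ∀ b ∈ C, b < K.ord → b ∈ E en c → Cf M.ord b →
      ∀ a ∈ V_ l, (ZFSet.pair a b.toZFSet ∈ R ↔ a ∈ e i) := by
    intro b hbC hbK hbE hbc
    have hbx : b ∈ E en x := by
      by_contra hne
      exact hCn b hbK hbC ⟨hbE, hne⟩ hbc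
    rw [hx] at hbx
    exact hbx.1
  refine ⟨C, hC, fun a ha => ?_⟩
  by_cases hav : a ∈ e i
  · left
    intro b hbC hbK hbE hbc
    exact (hin b hbC hbK hbE hbc a ha).2 hav
  · right
    intro b hbC hbK hbE hbc h
    exact hav ((hin b hbC hbK hbE hbc a ha).1 h)

end Pool.Agent.H60.HV
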